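import Pool.Agent.H547.CW.Stm

/-!
# CW64: `S_9a → S_9b`

The polynomial identity of the first step, evaluated at a square root of `-1`.
-/

set_option autoImplicit false

open Finset Polynomial

namespace Pool.Agent.H670.CW64

variable {p : ℕ} [hp : Fact p.Prime]

theorem key {P : (ZMod p)[X]} (hd : derivative P = 0) (hn : P.natDegree ≤ p)
    (h0 : P.eval 0 = 0) (h1 : P.eval 1 = 0) : P = 0 := by
  have hc : ∀ k, 0 < k → k < p → P.coeff k = 0 := by
    intro k hk hkp
    obtain ⟨n, rfl⟩ : ∃ n, k = n + 1 := ⟨k - 1, by omega⟩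
    have h := congrArg (fun Q => coeff Q n) hd
    simp only [coeff_derivative, coeff_zero] at h
    rcases mul_eq_zero.1 h with h | h
    · exact h
    · exfalso
      have h2 : ((n + 1 : ℕ) : ZMod p) = 0 := by
        push_cast
        exact h
      rw [ZMod.natCast_eq_zero_iff] at h2
      exact absurd (Nat.le_of_dvd hk h2) (by omega)
  have hc0 : P.coeff 0 = 0 := by rw [coeff_zero_eq_eval_zero, h0]
  have hP : P = C (P.coeff p) * X ^ p := by
    ext k
    rw [coeff_C_mul, coeff_X_pow]
    rcases Nat.lt_trichotomy k p with hk | hk | hk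
    · rw [if_neg (by omega), mul_zero]
      rcases Nat.eq_zero_or_pos k with h | h
      · rw [h, hc0]
      · exact hc k h hk
    · rw [if_pos hk, mul_one, hk]
    · rw [if_neg (by omega), mul_zero]
      exact coeff_eq_zero_of_natDegree_lt (by omega)
  have h3 : P.coeff p = 0 := by
    rw [hP] at h1
    simpa using h1
  rw [hP, h3]
  simp

theorem nine_b (h9a : Pool.Agent.H547.CW.S_9a) : Pool.Agent.H547.CW.S_9b := by
  intro p M _ hpM hp3
  have hprime : p.Prime := Fact.out
  set cj : ℕ → ZMod p := fun j => (Nat.centralBinom j : ZMod p) ^ 2 / 16 ^ j with hcj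
  set a : ℕ → ZMod p := fun j => cj j / (4 * (j : ZMod p) + 1) with ha
  set c : ZMod p := ∑ j ∈ range (M + 1), a j with hc
  change c = 0
  have hpz : (4 * (M : ZMod p) + 3) = 0 := by
    have h : ((4 * M + 3 : ℕ) : ZMod p) = 0 := by
      rw [← hpM]
      exact ZMod.natCast_self p
    push_cast at h
    exact h
  have hne : ∀ j ∈ range (M + 1), (4 * (j : ZMod p) + 1) ≠ 0 := by
    intro j hj h
    have h2 : ((4 * j + 1 : ℕ) : ZMod p) = 0 := by
      push_cast
      exact h
    rw [ZMod.natCast_eq_zero_iff] at h2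
    have h3 := Nat.le_of_dvd (by omega) h2
    rw [mem_range] at hj
    omega
  have hmul : ∀ j ∈ range (M + 1), a j * (4 * (j : ZMod p) + 1) = cj j := by
    intro j hj
    exact div_mul_cancel₀ _ (hne j hj)
  have he : ∀ j ∈ range (M + 1), (4 * ((M - j : ℕ) : ZMod p) + 2) = -(4 * (j : ZMod p) + 1) := by
    intro j hj
    rw [mem_range] at hj
    rw [Nat.cast_sub (by omega)]
    linear_combination hpz
  set L : (ZMod p)[X] := ∑ j ∈ range (M + 1), C (a j) *
    ((1 - X) ^ (4 * j + 1) * (1 + X) ^ (4 * (M - j) + 1 + 1)) with hL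
  set R : (ZMod p)[X] := ∑ j ∈ range (M + 1), C (a j) *
    (X ^ (4 * j + 1) - X ^ (4 * (M - j) + 1 + 1)) + C c * (1 - X ^ p) with hR
  have hdL : derivative L = ∑ j ∈ range (M + 1), C (cj j) *
      (-2 * ((1 - X) ^ (4 * j) * (1 + X) ^ (p - 2 - 4 * j))) := by
    rw [hL, derivative_sum]
    refine sum_congr rfl fun j hj => ?_
    have hj' := hj
    rw [mem_range] at hj'
    have e1 : p - 2 - 4 * j = 4 * (M - j) + 1 := by omega
    rw [e1, ← hmul j hj]
    have e2 : (C ((4 * ((M - j : ℕ) : ZMod p) + 2)) : (ZMod p)[X]) = -C (4 * (j : ZMod p) + 1) := by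
      rw [he j hj, C_neg]
    simp only [derivative_mul, derivative_C, derivative_pow, derivative_sub, derivative_add,
      derivative_one, derivative_X, zero_mul, zero_add, zero_sub, Nat.add_sub_cancel]
    simp only [map_add, map_mul, map_ofNat, map_one, map_natCast] at e2 ⊢
    push_cast
    have e3 : (4 * ((M - j : ℕ) : (ZMod p)[X]) + 1 + 1) = -(4 * (j : (ZMod p)[X]) + 1) := by
      linear_combination e2
    rw [e3, pow_succ (1 - X) (4 * j), pow_succ (1 + X) (4 * (M - j) + 1)]
    ring
  have hdR : derivative R = ∑ j ∈ range (M + 1), C (cj j) * (X ^ (4 * j) + X ^ (p - 2 - 4 * j)) := by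
    rw [hR, derivative_add, derivative_sum]
    have h1 : derivative (C c * (1 - X ^ p) : (ZMod p)[X]) = 0 := by
      simp [derivative_mul, derivative_pow]
    rw [h1, add_zero]
    refine sum_congr rfl fun j hj => ?_
    have hj' := hj
    rw [mem_range] at hj'
    have e1 : p - 2 - 4 * j = 4 * (M - j) + 1 := by omega
    rw [e1, ← hmul j hj]
    have e2 : (C ((4 * ((M - j : ℕ) : ZMod p) + 2)) : (ZMod p)[X]) = -C (4 * (j : ZMod p) + 1) := by
      rw [he j hj, C_neg]
    simp only [derivative_mul, derivative_C, derivative_X_pow, derivative_sub, zero_mul, zero_add,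
      Nat.add_sub_cancel]
    simp only [map_add, map_mul, map_ofNat, map_one, map_natCast] at e2 ⊢
    push_cast
    have e3 : (4 * ((M - j : ℕ) : (ZMod p)[X]) + 1 + 1) = -(4 * (j : (ZMod p)[X]) + 1) := by
      linear_combination e2
    rw [e3]
    ring
  have hdP : derivative (L - R) = 0 := by
    rw [derivative_sub, hdL, hdR, h9a p M hpM, sub_self]
  have hdeg : (L - R).natDegree ≤ p := by
    refine (natDegree_sub_le _ _).trans (max_le ?_ ?_)
    · rw [hL]
      refine natDegree_sum_le_of_forall_le _ _ fun j hj => ?_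
      rw [mem_range] at hj
      refine (natDegree_C_mul_le _ _).trans (natDegree_mul_le.trans ?_)
      have h1 : ((1 - X : (ZMod p)[X]) ^ (4 * j + 1)).natDegree ≤ 4 * j + 1 := by
        refine natDegree_pow_le.trans ?_
        have : (1 - X : (ZMod p)[X]).natDegree ≤ 1 := by
          refine (natDegree_sub_le _ _).trans ?_
          simp
        nlinarith
      have h2 : ((1 + X : (ZMod p)[X]) ^ (4 * (M - j) + 1 + 1)).natDegree ≤ 4 * (M - j) + 1 + 1 := by
        refine natDegree_pow_le.trans ?_
        have : (1 + X : (ZMod p)[X]).natDegree ≤ 1 := by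
          refine (natDegree_add_le _ _).trans ?_
          simp
        nlinarith
      omega
    · rw [hR]
      refine (natDegree_add_le _ _).trans (max_le ?_ ?_)
      · refine natDegree_sum_le_of_forall_le _ _ fun j hj => ?_
        rw [mem_range] at hj
        refine (natDegree_C_mul_le _ _).trans ((natDegree_sub_le _ _).trans (max_le ?_ ?_))
        · rw [natDegree_X_pow]
          omega
        · rw [natDegree_X_pow]
          omega
      · refine (natDegree_C_mul_le _ _).trans ((natDegree_sub_le _ _).trans (max_le ?_ ?_))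
        · simp
        · rw [natDegree_X_pow]
  have h0 : (L - R).eval 0 = 0 := by
    rw [hL, hR]
    simp only [eval_sub, eval_add, eval_finsetSum, eval_mul, eval_C, eval_pow, eval_X, eval_one]
    have hpp : p ≠ 0 := hprime.ne_zero
    simp only [sub_zero, one_pow, add_zero, mul_one, ne_eq, Nat.add_eq_zero_iff, one_ne_zero,
      and_false, not_false_eq_true, zero_pow, mul_zero, sum_const_zero, zero_add, hpp]
    rw [hc, sub_self]
  have h1 : (L - R).eval 1 = 0 := by
    rw [hL, hR]
    simp only [eval_sub, eval_add, eval_finsetSum, eval_mul, eval_C, eval_pow, eval_X, eval_one]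
    simp
  have hLR : L - R = 0 := key hdP hdeg h0 h1
  -- a square root of `-1`
  obtain ⟨i, hi⟩ := IsAlgClosed.exists_pow_nat_eq (-1 : AlgebraicClosure (ZMod p)) (n := 2) (by norm_num)
  have hev := congrArg (fun Q => aeval i Q) hLR
  have hi4 : i ^ 4 = 1 := by
    rw [show i ^ 4 = (i ^ 2) ^ 2 by ring, hi]
    norm_num
  have hip : i ^ p = -i := by
    have e : i ^ p = i ^ (4 * M + 3) := congrArg (fun n => i ^ n) hpM
    rw [e, pow_add, pow_mul, hi4, one_pow, one_mul, show i ^ 3 = i ^ 2 * i by ring, hi]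
    ring
  have h1i : (1 + i) ^ p = 1 - i := by
    rw [add_pow_char, one_pow, hip]
    ring
  have t1 : ∀ j ∈ range (M + 1),
      (1 - i) ^ (4 * j + 1) * (1 + i) ^ (4 * (M - j) + 1 + 1) = -(1 + i) := by
    intro j hj
    rw [mem_range] at hj
    have e1 : 1 - i = (-i) * (1 + i) := by linear_combination hi
    have e2 : (-i) ^ (4 * j + 1) = -i := by
      rw [pow_succ, pow_mul, show (-i) ^ 4 = i ^ 4 by ring, hi4, one_pow, one_mul]
    rw [e1, mul_pow, e2, mul_assoc, ← pow_add,
      show 4 * j + 1 + (4 * (M - j) + 1 + 1) = p by omega, h1i]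
    linear_combination hi
  have t2 : ∀ j : ℕ, i ^ (4 * j + 1) = i := by
    intro j
    rw [pow_succ, pow_mul, hi4, one_pow, one_mul]
  have t3 : ∀ j : ℕ, i ^ (4 * j + 1 + 1) = -1 := by
    intro j
    rw [pow_succ, t2, ← pow_two, hi]
  have hcc : algebraMap (ZMod p) (AlgebraicClosure (ZMod p)) c =
      ∑ j ∈ range (M + 1), algebraMap (ZMod p) (AlgebraicClosure (ZMod p)) (a j) := by
    rw [hc, map_sum]
  simp only [map_zero, hL, hR, map_sub, map_add, map_sum, map_mul, map_pow, aeval_C, aeval_X,
    map_one, t2, t3, hip] at hev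
  rw [sum_congr rfl (g := fun j => algebraMap (ZMod p) (AlgebraicClosure (ZMod p)) (a j) * (-(1 + i)))
    (fun j hj => by rw [t1 j hj]), ← sum_mul, ← sum_mul, ← hcc] at hev
  have h3 : (3 : AlgebraicClosure (ZMod p)) ≠ 0 := by
    intro h
    have h' : ((3 : ℕ) : AlgebraicClosure (ZMod p)) = 0 := by exact_mod_cast h
    rw [CharP.cast_eq_zero_iff (AlgebraicClosure (ZMod p)) p] at h'
    exact absurd (Nat.le_of_dvd (by norm_num) h') (by omega)
  have h2 : (2 : AlgebraicClosure (ZMod p)) ≠ 0 := by
    intro h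
    have h' : ((2 : ℕ) : AlgebraicClosure (ZMod p)) = 0 := by exact_mod_cast h
    rw [CharP.cast_eq_zero_iff (AlgebraicClosure (ZMod p)) p] at h'
    exact absurd (Nat.le_of_dvd (by norm_num) h') (by omega)
  have hi1 : (1 + i) ≠ 0 := by
    intro h
    apply h2
    linear_combination (1 - i) * h + hi
  have h5 : 3 * (1 + i) * algebraMap (ZMod p) (AlgebraicClosure (ZMod p)) c = 0 := by
    linear_combination -hev
  rcases mul_eq_zero.1 h5 with h6 | h6
  · exact absurd h6 (mul_ne_zero h3 hi1)
  · exact (map_eq_zero _).1 h6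

end Pool.Agent.H670.CW64
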